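import Pool.Agent.Helper77_MWK.FRE
import Pool.Agent.Helper27_MWK.SWK
import Pool.Agent.Helper16_MWK.SRT
import Pool.Agent.Helper39_MWK.CLO
import Pool.Agent.Helper43_MWK.TRU
import Pool.Agent.Helper45_MWK.DAG
import Pool.Agent.Helper15_MWK.INV
import Pool.Agent.Helper64_MWK.SWA
import Pool.Agent.Helper88_MWK.DER
import Pool.Agent.Helper51_MWK.CUT
import Pool.Agent.Helper2_MWK.TWC
import Pool.Agent.Helper13_MWK.SEG
import Pool.Agent.Helper24_MWK.OKM
import Pool.Agent.Helper81_MWK.TGF
import Pool.Agent.Helper13_MWK.MVL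
import Pool.Agent.Helper19_MWK.TGB
import Pool.Agent.Helper50_MWK.FTA
import Pool.Agent.Helper81_MWK.TGD
import Pool.Agent.Helper74_MWK.TGA
import Pool.Agent.Helper75_MWK.CRD
import Pool.Agent.Helper5_MWK.CRX
import Pool.Agent.Helper59_MWK.ASG
import Pool.Agent.Helper33_MWK.CVT
import Pool.Agent.Helper98_MWK.CVD
import Pool.Agent.Helper89_MWK.CHE
import Pool.Agent.Helper36_MWK.CH2
import Pool.Agent.Helper46_MWK.TRC
import Pool.Agent.Helper52_MWK.SFA
import Pool.Agent.Helper14_MWK.SFB
import Pool.Agent.Helper99_MWK.SBA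
import Pool.Agent.Helper3_MWK.SBB
import Pool.Agent.Helper7_MWK.SDA
import Pool.Agent.Helper42_MWK.SDB
import Pool.Agent.Helper64_MWK.SAA
import Pool.Agent.Helper19_MWK.SAB
import Pool.Agent.Helper69_MWK.STB
import Pool.Agent.Helper49_MWK.LIM
import Pool.Agent.Helper45_MWK.DG1
import Pool.Agent.Helper7_MWK.DG2
import Pool.Agent.Helper30_MWK.LVM
import Pool.Agent.Helper26_MWK.LVS
import Pool.Agent.Helper49_MWK.LVD
import Pool.Agent.Helper62_MWK.CHA
import Pool.Agent.Helper24_MWK.MOD

/-!
# MWK: the fully invariant congruences above K form a chain (assembly)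

MP_23468a_al.
-/

namespace Pool.Agent.MWK.H90

open Pool.Agent.Helper14_MV Pool.Agent.Helper2_MV Pool.Agent.MWK

theorem seg : SegStmt := H13.seg H51.cut H2.twc
theorem clo : CloStmt := H39.clo H77.fre
theorem tru : TruStmt := H43.tru H77.fre
theorem mvl : MvlStmt := H13.mvl H77.fre H24.okm
theorem fta : FtaStmt := H50.fta H77.fre clo seg H24.okm
theorem crd : CrdStmt := H75.crd H77.fre
theorem crx : CrxStmt := H5.crx H77.fre crd
theorem cvd : CvdStmt := H98.cvd H33.cvt
theorem ch2 : Ch2Stmt := H36.ch2 H89.che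
theorem sfa : SfaStmt := H52.sfa H45.dag H89.che H46.trc
theorem sfb : SfbStmt := H14.sfb H77.fre H33.cvt crd H59.asg H24.okm
theorem sba : SbaStmt := H99.sba H45.dag H89.che H46.trc
theorem sbb : SbbStmt := H3.sbb H77.fre H33.cvt crd H59.asg H24.okm
theorem sda : SdaStmt := H7.sda H45.dag H89.che ch2 H46.trc
theorem sdb : SdbStmt := H42.sdb H77.fre cvd crx H59.asg H24.okm
theorem saa : SaaStmt := H64.saa H45.dag H89.che H46.trc
theorem sab : SabStmt := H19.sab H77.fre H33.cvt crd H59.asg H24.okm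

theorem swk : SwkStmt := H27.swk H77.fre
theorem srt : SrtStmt := H16.srt H64.swa
theorem tgb : TgbStmt := H19.tgb swk seg H24.okm H51.cut H2.twc mvl
theorem tgd : TgdStmt := H81.tgd swk seg H24.okm fta
theorem tga : TgaStmt := H74.tga swk seg H24.okm fta H45.dag H64.swa
theorem der : DerStmt := H88.der tru srt
theorem lim : LimStmt := H49.lim tru srt H45.dag H51.cut H2.twc clo H69.stb
theorem lvs : LvsStmt := H26.lvs sfa sfb (H81.tgf seg) sba sbb tgb sda sdb tgd saa sab tga
theorem lvd : LvdStmt := H49.lvd der (H15.inv H45.dag)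

/-- **The fully invariant congruences above K form a chain.** -/
theorem cha : ChaStmt := H62.cha H30.lvm lvs lvd lim H45.dg1 (H7.dg2 clo)

/-- **Sufficiency of K.** -/
theorem k_mod : ModStmt := H24.mod_ cha

end Pool.Agent.MWK.H90
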