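import Pool.Agent.Helper27_MWF.POW
import Pool.Agent.Helper77_MWF.CTT
import Pool.Agent.Helper42_MWF.SIM
import Pool.Agent.Helper13_MWF.BND
import Pool.Agent.Helper30_MWF.ABF
import Pool.Agent.Helper75_MWF.ABS
import Pool.Agent.Helper60_MWF.ZER
import Pool.Agent.Helper94_MWK.NTY
import Pool.Agent.Helper3_MWK.NAA
import Pool.Agent.Helper53_MWK.NKA
import Pool.Agent.Helper50_MWK.NPB
import Pool.Agent.Helper19_MWK.NTB
import Pool.Agent.Helper49_MWK.NR0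
import Pool.Agent.Helper23_MWK.NMC
import Pool.Agent.Helper76_MWK.NEC
import Pool.Agent.Helper45_MWK.NMD
import Pool.Agent.Helper89_MWK.NTD
import Pool.Agent.Helper88_MWK.ND1
import Pool.Agent.Helper49_MWK.GAM

/-!
# MWK, part N: necessity in the gamma world (assembly)

MP_23468a_al.
-/

namespace Pool.Agent.MWK.H90

open Pool.Agent.Helper14_MV Pool.Agent.Helper2_MV Pool.Agent.MWK

theorem nPow : Pool.Agent.MWF.PowStmt := Pool.Agent.MWF.H27.pow
theorem nCtt : Pool.Agent.MWF.CttStmt := Pool.Agent.MWF.H77.ctt nPow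
theorem nSim : Pool.Agent.MWF.SimStmt := Pool.Agent.MWF.H42.sim nPow nCtt
theorem nAbf : Pool.Agent.MWF.AbfStmt := Pool.Agent.MWF.H30.abf Pool.Agent.MWF.H13.bnd
theorem nAbs : Pool.Agent.MWF.AbsStmt := Pool.Agent.MWF.H75.abs nPow nAbf
theorem nZer : Pool.Agent.MWF.ZerStmt := Pool.Agent.MWF.H60.zer nAbs

theorem nNty : NtyStmt := Pool.Agent.MWK.H94.nty nPow nCtt nSim
theorem nNaa : NaaStmt := Pool.Agent.MWK.H3.naa nPow nCtt nSim nZer
theorem nNpb : NpbStmt := Pool.Agent.MWK.H50.npb nCtt nNty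
theorem nNr0 : Nr0Stmt :=
  Pool.Agent.MWK.H49.nr0 nNaa Pool.Agent.MWK.H53.nka nNpb Pool.Agent.MWK.H19.ntb
theorem nNmc : NmcStmt := Pool.Agent.MWK.H23.nmc nCtt nSim nNty
theorem nNmd : NmdStmt := Pool.Agent.MWK.H45.nmd nPow nCtt nSim nNty
theorem nNd1 : Nd1Stmt :=
  Pool.Agent.MWK.H88.nd1 nNmc Pool.Agent.MWK.H76.nec nNmd Pool.Agent.MWK.H89.ntd

/-- **Necessity in the gamma world**: modular => `x^2y^2 ≈ y^2x^2`, and `x^2y ≈ x^2yx` or
`xytxy ≈ yxtxy`. -/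
theorem gam_nec : GamStmt := Pool.Agent.MWK.H49.gam nNr0 nNd1

end Pool.Agent.MWK.H90
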